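import Mathlib

set_option autoImplicit false

open MeasureTheory Set Filter Topology Metric

namespace Pool.Agent.H.MP_38bb9b_an

variable {ι : Type*} [DecidableEq ι]

lemma split (W : Finset ι) (δ : ι → ℝ) (M : ℕ) (hM : M ≤ W.card) :
    ∃ U ⊆ W, U.card = M ∧ ∀ u ∈ U, ∀ v ∈ W, v ∉ U → δ u ≤ δ v := by
  obtain ⟨U, hU, hmin⟩ := (W.powersetCard M).exists_min_image (fun U => ∑ u ∈ U, δ u)
    (Finset.powersetCard_nonempty.2 hM)
  rw [Finset.mem_powersetCard] at hU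
  refine ⟨U, hU.1, hU.2, fun u hu v hv hvU => ?_⟩
  have h1 : v ∉ U.erase u := fun h => hvU (Finset.mem_of_mem_erase h)
  have h2 := hmin (insert v (U.erase u)) (by
    rw [Finset.mem_powersetCard]
    refine ⟨Finset.insert_subset hv ((Finset.erase_subset _ _).trans hU.1), ?_⟩
    rw [Finset.card_insert_of_notMem h1, Finset.card_erase_of_mem hu, hU.2]
    have : 0 < M := hU.2 ▸ Finset.card_pos.2 ⟨u, hu⟩
    omega)
  rw [Finset.sum_insert h1, ← Finset.add_sum_erase U δ hu] at h2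
  linarith

lemma greedy (b : ι → ℂ) (M : ℕ) (hM : 0 < M) (m : ℕ) : ∀ S : Finset ι, S.card = (m + 1) * M →
    ∃ a : Fin m → ℂ, ∀ z : ℂ, ∃ U ⊆ S, U.card = M ∧
      (∏ i, ‖z - a i‖) ^ M * ∏ k ∈ U, ‖z - b k‖ ≤ (3 ^ m) ^ M * ∏ k ∈ S, ‖z - b k‖ := by
  induction m with
  | zero =>
    intro S hS
    exact ⟨Fin.elim0, fun z => ⟨S, subset_rfl, by simpa using hS, by simp⟩⟩
  | succ m ih =>
    intro S hS
    have hSM : M + 1 ≤ S.card := by rw [hS]; nlinarith
    obtain ⟨W, hW, hmin⟩ := (S.powersetCard (M + 1)).exists_min_image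
      (fun W => diam (b '' (W : Set ι))) (Finset.powersetCard_nonempty.2 hSM)
    rw [Finset.mem_powersetCard] at hW
    obtain ⟨T, hTW, hT⟩ := Finset.exists_subset_card_eq (s := W) (n := M) (by omega)
    obtain ⟨k0, hk0⟩ : W.Nonempty := Finset.card_pos.1 (by omega)
    have hTS : T ⊆ S := hTW.trans hW.1
    obtain ⟨a, ha⟩ := ih (S \ T) (by rw [Finset.card_sdiff_of_subset hTS, hS, hT]; ring_nf; omega)
    refine ⟨Fin.cons (b k0) a, fun z => ?_⟩
    obtain ⟨U', hU', hU'c, hle⟩ := ha z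
    have hdisj : Disjoint T U' := by
      rw [Finset.disjoint_left]
      intro k hk hk'
      exact (Finset.mem_sdiff.1 (hU' hk')).2 hk
    have hc : (T ∪ U').card = 2 * M := by rw [Finset.card_union_of_disjoint hdisj]; omega
    have hsub : T ∪ U' ⊆ S := Finset.union_subset hTS (hU'.trans Finset.sdiff_subset)
    obtain ⟨U, hU, hUc, hUm⟩ := split (T ∪ U') (fun k => ‖z - b k‖) M (by omega)
    refine ⟨U, hU.trans hsub, hUc, ?_⟩
    have key : ∀ v ∈ (T ∪ U') \ U, ‖z - b k0‖ ≤ 3 * ‖z - b v‖ := by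
      intro v hv
      obtain ⟨hv1, hv2⟩ := Finset.mem_sdiff.1 hv
      have h1 : ∀ k ∈ insert v U, ‖z - b k‖ ≤ ‖z - b v‖ := by
        intro k hk
        rcases Finset.mem_insert.1 hk with rfl | hk
        · exact le_rfl
        · exact hUm k hk v hv1 hv2
      have h2 : (insert v U).card = M + 1 := by rw [Finset.card_insert_of_notMem hv2, hUc]
      have h3 : insert v U ⊆ T ∪ U' := Finset.insert_subset hv1 hU
      have h4 := hmin (insert v U) (Finset.mem_powersetCard.2 ⟨h3.trans hsub, h2⟩)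
      have h5 : diam (b '' ((insert v U : Finset ι) : Set ι)) ≤ 2 * ‖z - b v‖ := by
        refine diam_le_of_forall_dist_le (by positivity) ?_
        rintro _ ⟨x, hx, rfl⟩ _ ⟨y, hy, rfl⟩
        have a1 := h1 x hx
        have a2 := h1 y hy
        have a3 := dist_triangle_left (b x) (b y) z
        rw [dist_eq_norm z, dist_eq_norm z] at a3
        linarith
      obtain ⟨k, hk, hkT⟩ : ∃ k ∈ insert v U, k ∈ T := by
        by_contra hcon
        push Not at hcon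
        have : insert v U ⊆ U' := fun k hk =>
          (Finset.mem_union.1 (h3 hk)).resolve_left (hcon k hk)
        have := Finset.card_le_card this
        omega
      have h6 : dist (b k) (b k0) ≤ diam (b '' (W : Set ι)) :=
        dist_le_diam_of_mem (W.finite_toSet.image b).isBounded ⟨k, hTW hkT, rfl⟩ ⟨k0, hk0, rfl⟩
      have h7 := dist_triangle z (b k) (b k0)
      rw [dist_eq_norm z, dist_eq_norm z] at h7
      have h8 := h1 k hk
      linarith
    have hVc : ((T ∪ U') \ U).card = M := by rw [Finset.card_sdiff_of_subset hU]; omega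
    have h9 : ‖z - b k0‖ ^ M ≤ 3 ^ M * ∏ v ∈ (T ∪ U') \ U, ‖z - b v‖ := by
      calc ‖z - b k0‖ ^ M = ∏ _v ∈ (T ∪ U') \ U, ‖z - b k0‖ := by rw [Finset.prod_const, hVc]
        _ ≤ ∏ v ∈ (T ∪ U') \ U, (3 * ‖z - b v‖) :=
          Finset.prod_le_prod (fun _ _ => norm_nonneg _) key
        _ = _ := by rw [Finset.prod_mul_distrib, Finset.prod_const, hVc]
    have h10 : (∏ v ∈ (T ∪ U') \ U, ‖z - b v‖) * ∏ k ∈ U, ‖z - b k‖ =
        (∏ k ∈ T, ‖z - b k‖) * ∏ k ∈ U', ‖z - b k‖ := by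
      rw [Finset.prod_sdiff hU, Finset.prod_union hdisj]
    have h11 : (∏ k ∈ S \ T, ‖z - b k‖) * ∏ k ∈ T, ‖z - b k‖ = ∏ k ∈ S, ‖z - b k‖ :=
      Finset.prod_sdiff hTS
    rw [Fin.prod_univ_succ]
    simp only [Fin.cons_zero, Fin.cons_succ]
    have p1 : 0 ≤ ∏ k ∈ U, ‖z - b k‖ := Finset.prod_nonneg fun _ _ => norm_nonneg _
    have p2 : 0 ≤ ∏ k ∈ T, ‖z - b k‖ := Finset.prod_nonneg fun _ _ => norm_nonneg _
    have p3 : 0 ≤ (∏ i, ‖z - a i‖) ^ M := pow_nonneg (Finset.prod_nonneg fun _ _ => norm_nonneg _) _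
    calc (‖z - b k0‖ * ∏ i, ‖z - a i‖) ^ M * ∏ k ∈ U, ‖z - b k‖
        = ‖z - b k0‖ ^ M * ((∏ i, ‖z - a i‖) ^ M * ∏ k ∈ U, ‖z - b k‖) := by rw [mul_pow]; ring
      _ ≤ (3 ^ M * ∏ v ∈ (T ∪ U') \ U, ‖z - b v‖) *
          ((∏ i, ‖z - a i‖) ^ M * ∏ k ∈ U, ‖z - b k‖) := by gcongr
      _ = 3 ^ M * (∏ k ∈ T, ‖z - b k‖) * ((∏ i, ‖z - a i‖) ^ M * ∏ k ∈ U', ‖z - b k‖) := by
        linear_combination (3 ^ M * (∏ i, ‖z - a i‖) ^ M) * h10
      _ ≤ 3 ^ M * (∏ k ∈ T, ‖z - b k‖) * ((3 ^ m) ^ M * ∏ k ∈ S \ T, ‖z - b k‖) := by gcongr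
      _ = _ := by rw [← h11, pow_succ, mul_pow]; ring

lemma cartan (δ : ι → ℝ) (hδ : ∀ k, 0 ≤ δ k) (θ : ℝ) (hθ : 0 ≤ θ) (n : ℕ) :
    ∀ U : Finset ι, U.card = n →
      (∀ j : ℕ, 1 ≤ j → j ≤ n → (U.filter (fun k => δ k ≤ j * θ)).card < j) →
      (n.factorial : ℝ) * θ ^ n ≤ ∏ k ∈ U, δ k := by
  induction n with
  | zero => intro U hU _; rw [Finset.card_eq_zero.1 hU]; simp
  | succ n ih =>
    intro U hU h
    obtain ⟨u, hu, hu'⟩ : ∃ u ∈ U, ¬ δ u ≤ ((n + 1 : ℕ) : ℝ) * θ := by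
      by_contra hcon
      push Not at hcon
      have := h (n + 1) (by omega) le_rfl
      rw [Finset.filter_true_of_mem hcon] at this
      omega
    have h1 := ih (U.erase u) (by rw [Finset.card_erase_of_mem hu]; omega) (fun j j1 j2 =>
      lt_of_le_of_lt (Finset.card_le_card (Finset.filter_subset_filter _ (Finset.erase_subset _ _)))
        (h j j1 (by omega)))
    rw [← Finset.mul_prod_erase U δ hu, Nat.factorial_succ]
    push Not at hu'
    calc (((n + 1) * n.factorial : ℕ) : ℝ) * θ ^ (n + 1)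
        = (((n + 1 : ℕ) : ℝ) * θ) * ((n.factorial : ℝ) * θ ^ n) := by push_cast; ring
      _ ≤ _ := mul_le_mul hu'.le h1 (by positivity) (hδ u)

lemma cartan' (δ : ι → ℝ) (hδ : ∀ k, 0 ≤ δ k) (η : ℝ) (hη : 0 < η) (U : Finset ι) (M : ℕ)
    (hM : 0 < M) (hU : U.card = M) (h : ∏ k ∈ U, δ k ≤ η ^ M) :
    ∃ j : ℕ, 1 ≤ j ∧ j ≤ M ∧ j ≤ (U.filter (fun k => δ k ≤ j * (3 * η / M))).card := by
  by_contra hcon
  push Not at hcon
  have h1 := (cartan δ hδ (3 * η / M) (by positivity) M U hU hcon).trans h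
  have h2 := Real.pow_div_factorial_le_exp (M:ℝ) (by positivity) M
  have h3 : Real.exp M < 3 ^ M := by
    rw [← Real.exp_one_pow]
    exact pow_lt_pow_left₀ (Real.exp_one_lt_d9.trans (by norm_num)) (Real.exp_pos _).le hM.ne'
  have hf : (0:ℝ) < M.factorial := by positivity
  have hM' : (0:ℝ) < (M:ℝ) ^ M := by positivity
  rw [div_le_iff₀ hf] at h2
  rw [div_pow, mul_pow, ← mul_div_assoc, div_le_iff₀ hM'] at h1
  have h4 : (M:ℝ) ^ M < 3 ^ M * M.factorial := h2.trans_lt (by gcongr)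
  have h5 : 0 < η ^ M := by positivity
  nlinarith

lemma local_ball (b : ι → ℂ) (S : Finset ι) (M m : ℕ) (hM : 0 < M) (a : Fin m → ℂ) (l : ℝ)
    (hl : 0 < l) (z : ℂ) (hz : ∏ k ∈ S, ‖z - b k‖ ≤ (l ^ (m + 1)) ^ M)
    (hU : ∃ U ⊆ S, U.card = M ∧
      (∏ i, ‖z - a i‖) ^ M * ∏ k ∈ U, ‖z - b k‖ ≤ (3 ^ m) ^ M * ∏ k ∈ S, ‖z - b k‖)
    (hr : 0 < ∏ i, ‖z - a i‖) :
    ∃ ρ : ℝ, 0 < ρ ∧ (∀ i, ρ ≤ ‖z - a i‖) ∧ ρ * ∏ i, ‖z - a i‖ ≤ (3 * l) ^ (m + 1) ∧
      (ρ * ∏ i, ‖z - a i‖) ^ 2 ≤ ((3 * l) ^ (m + 1)) ^ 2 *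
        (((S.filter (fun k => ‖z - b k‖ ≤ ρ)).card : ℝ) / M +
          ((Finset.univ.filter (fun i => ‖z - a i‖ ≤ ρ)).card : ℝ)) := by
  set R := ∏ i, ‖z - a i‖ with hR
  set c := (3 * l) ^ (m + 1) with hc
  have hc0 : 0 < c := by positivity
  by_cases hcase : ∀ i, c / R ≤ ‖z - a i‖
  · obtain ⟨U, hUS, hUc, hle⟩ := hU
    have h1 : ∏ k ∈ U, ‖z - b k‖ ≤ (3 ^ m * l ^ (m + 1) / R) ^ M := by
      rw [div_pow, le_div_iff₀ (by positivity), mul_pow, mul_comm]
      exact hle.trans (by gcongr)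
    obtain ⟨j, j1, j2, j3⟩ := cartan' (fun k => ‖z - b k‖) (fun _ => norm_nonneg _) _
      (by positivity) U M hM hUc h1
    have hM' : (0:ℝ) < M := by exact_mod_cast hM
    have hj : (j:ℝ) / M ≤ 1 := by rw [div_le_one hM']; exact_mod_cast j2
    have hj0 : 0 < (j:ℝ) / M := div_pos (by exact_mod_cast j1) hM'
    have e : (j:ℝ) * (3 * (3 ^ m * l ^ (m + 1) / R) / M) = (j / M) * (c / R) := by
      rw [hc, mul_pow, pow_succ 3]; field_simp
    rw [e] at j3
    have e2 : (j:ℝ) / M * (c / R) * R = j / M * c := by field_simp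
    refine ⟨(j / M) * (c / R), by positivity, fun i => (mul_le_of_le_one_left (by positivity)
      hj).trans (hcase i), ?_, ?_⟩
    · rw [e2]; exact mul_le_of_le_one_left hc0.le hj
    · rw [e2]
      have j4 : (j:ℝ) ≤ ((S.filter (fun k => ‖z - b k‖ ≤ j / M * (c / R))).card : ℝ) := by
        norm_cast
        refine j3.trans (Finset.card_le_card fun k hk => ?_)
        rw [Finset.mem_filter] at hk ⊢
        exact ⟨hUS hk.1, hk.2⟩
      calc ((j:ℝ) / M * c) ^ 2 = c ^ 2 * ((j / M) * (j / M)) := by ring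
        _ ≤ c ^ 2 * (j / M) := by gcongr; exact mul_le_of_le_one_left hj0.le hj
        _ ≤ _ := by
          gcongr
          refine le_add_of_le_of_nonneg ?_ (by positivity)
          gcongr
  · push Not at hcase
    obtain ⟨i0, hi0⟩ := hcase
    obtain ⟨i, -, hi⟩ := Finset.univ.exists_min_image (fun i => ‖z - a i‖) ⟨i0, Finset.mem_univ _⟩
    have hpos : 0 < ‖z - a i‖ := by
      rcases (norm_nonneg (z - a i)).lt_or_eq with h | h
      · exact h
      · rw [hR, Finset.prod_eq_zero (Finset.mem_univ i) h.symm] at hr; exact absurd hr (lt_irrefl _)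
    have h1 : ‖z - a i‖ * R ≤ c := by
      rw [← le_div_iff₀ hr]; exact (hi i0 (Finset.mem_univ _)).trans hi0.le
    refine ⟨‖z - a i‖, hpos, fun i' => hi i' (Finset.mem_univ _), h1, ?_⟩
    have h2 : (1:ℝ) ≤ ((Finset.univ.filter (fun i' => ‖z - a i'‖ ≤ ‖z - a i‖)).card : ℝ) := by
      norm_cast
      refine Finset.card_pos.2 ⟨i, ?_⟩
      simp
    calc (‖z - a i‖ * R) ^ 2 ≤ c ^ 2 * 1 := by rw [mul_one]; gcongr
      _ ≤ _ := by
        gcongr
        exact le_add_of_nonneg_of_le (by positivity) h2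

lemma count_le {κ : Type*} [DecidableEq κ] (b : κ → ℂ) (S : Finset κ) (ρ : ℂ → ℝ) (F : Finset ℂ)
    (hF : (F : Set ℂ).PairwiseDisjoint fun z => closedBall z (ρ z)) :
    ∑ z ∈ F, ((S.filter (fun k => ‖z - b k‖ ≤ ρ z)).card : ℝ) ≤ S.card := by
  norm_cast
  rw [← Finset.card_biUnion]
  · exact Finset.card_le_card (Finset.biUnion_subset.2 fun z _ => Finset.filter_subset _ _)
  · intro x hx y hy hxy
    have h1 := hF hx hy hxy
    simp only [Function.onFun] at h1 ⊢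
    rw [Finset.disjoint_left]
    intro k hk hk'
    rw [Finset.mem_filter] at hk hk'
    have h2 := Set.disjoint_left.1 h1
    refine @h2 (b k) ?_ ?_
    · rw [mem_closedBall, dist_comm, dist_eq_norm]; exact hk.2
    · rw [mem_closedBall, dist_comm, dist_eq_norm]; exact hk'.2

lemma integral_le (b : ι → ℂ) (S : Finset ι) (M m : ℕ) (hM : 0 < M) (hS : S.card = (m + 1) * M)
    (l : ℝ) (hl : 0 < l) (K : Set ℂ) (hK : MeasurableSet K)
    (hz : ∀ z ∈ K, ∏ k ∈ S, ‖z - b k‖ ≤ (l ^ (m + 1)) ^ M) :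
    ∃ a : Fin m → ℂ, ∫⁻ z in K, ENNReal.ofReal ((∏ i, ‖z - a i‖) ^ 2) ≤
      ENNReal.ofReal (64 * (5 ^ m) ^ 2 * ((3 * l) ^ (m + 1)) ^ 2 * (2 * m + 1)) := by
  obtain ⟨a, ha⟩ := greedy b M hM m S hS
  refine ⟨a, ?_⟩
  set t : Set ℂ := {z | z ∈ K ∧ 0 < ∏ i, ‖z - a i‖} with ht
  have h1 : ∀ z, ∃ ρ : ℝ, z ∈ t → 0 < ρ ∧ (∀ i, ρ ≤ ‖z - a i‖) ∧
      ρ * ∏ i, ‖z - a i‖ ≤ (3 * l) ^ (m + 1) ∧
      (ρ * ∏ i, ‖z - a i‖) ^ 2 ≤ ((3 * l) ^ (m + 1)) ^ 2 *
        (((S.filter (fun k => ‖z - b k‖ ≤ ρ)).card : ℝ) / M +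
          ((Finset.univ.filter (fun i => ‖z - a i‖ ≤ ρ)).card : ℝ)) := by
    intro z
    by_cases h : z ∈ t
    · obtain ⟨ρ, hρ⟩ := local_ball b S M m hM a l hl z (hz z h.1) (ha z) h.2
      exact ⟨ρ, fun _ => hρ⟩
    · exact ⟨0, fun h' => absurd h' h⟩
  choose ρ hρ using h1
  obtain ⟨u, hut, hdisj, hcov⟩ := Vitali.exists_disjoint_subfamily_covering_enlargement_closedBall
    t (fun z => z) ρ (3 * l) (fun z hz => by
      obtain ⟨a1, a2, a3, -⟩ := hρ z hz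
      refine le_of_pow_le_pow_left₀ (n := m + 1) (by omega) (by positivity) (le_trans ?_ a3)
      rw [pow_succ']
      gcongr
      calc ρ z ^ m = ∏ _i : Fin m, ρ z := by simp
        _ ≤ _ := Finset.prod_le_prod (fun _ _ => a1.le) (fun i _ => a2 i)) 4 (by norm_num)
  have hcount : u.Countable := hdisj.countable_of_nonempty_interior fun z hz => by
    rw [interior_closedBall _ (hρ z (hut hz)).1.ne']
    exact ⟨z, mem_ball_self (hρ z (hut hz)).1⟩
  have := hcount.to_subtype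
  set f : ℂ → ENNReal := fun z => ENNReal.ofReal ((∏ i, ‖z - a i‖) ^ 2) with hf
  have hmU : MeasurableSet (⋃ z : u, closedBall (z:ℂ) (4 * ρ z)) :=
    MeasurableSet.iUnion fun z => measurableSet_closedBall
  have step1 : ∫⁻ z in K, f z ≤ ∫⁻ z in ⋃ z : u, closedBall (z:ℂ) (4 * ρ z), f z := by
    rw [← lintegral_indicator hK, ← lintegral_indicator hmU]
    refine lintegral_mono fun z => ?_
    by_cases hzK : z ∈ K
    · rw [indicator_of_mem hzK]
      by_cases hzt : z ∈ t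
      · obtain ⟨w, hw, hsub⟩ := hcov z hzt
        rw [indicator_of_mem (mem_iUnion.2 ⟨⟨w, hw⟩, hsub (mem_closedBall_self (hρ z hzt).1.le)⟩)]
      · have h0 : ∏ i, ‖z - a i‖ = 0 := by
          by_contra h
          exact hzt ⟨hzK, lt_of_le_of_ne (Finset.prod_nonneg fun _ _ => norm_nonneg _) (Ne.symm h)⟩
        simp [hf, h0]
    · rw [indicator_of_notMem hzK]; exact zero_le
  set W : ℂ → ℝ := fun z => ((S.filter (fun k => ‖z - b k‖ ≤ ρ z)).card : ℝ) / M +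
    ((Finset.univ.filter (fun i => ‖z - a i‖ ≤ ρ z)).card : ℝ) with hW
  set c : ℝ := 64 * (5 ^ m) ^ 2 * ((3 * l) ^ (m + 1)) ^ 2 with hc
  have step2 : ∀ z ∈ u, ∫⁻ w in closedBall z (4 * ρ z), f w ≤ ENNReal.ofReal (c * W z) := by
    intro z hz
    obtain ⟨a1, a2, -, a4⟩ := hρ z (hut hz)
    have b1 : ∀ w ∈ closedBall z (4 * ρ z), f w ≤ ENNReal.ofReal ((5 ^ m * ∏ i, ‖z - a i‖) ^ 2) := by
      intro w hw
      refine ENNReal.ofReal_le_ofReal (pow_le_pow_left₀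
        (Finset.prod_nonneg fun _ _ => norm_nonneg _) ?_ 2)
      calc ∏ i, ‖w - a i‖ ≤ ∏ i, (5 * ‖z - a i‖) := by
            refine Finset.prod_le_prod (fun _ _ => norm_nonneg _) fun i _ => ?_
            have c1 := dist_triangle w z (a i)
            rw [dist_eq_norm z, dist_eq_norm w (a i)] at c1
            have c2 := a2 i
            rw [mem_closedBall] at hw
            linarith
        _ = _ := by rw [Finset.prod_mul_distrib]; simp
    refine (setLIntegral_mono' measurableSet_closedBall b1).trans ?_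
    rw [setLIntegral_const, Complex.volume_closedBall, ← ENNReal.ofReal_pow (by positivity),
      ← ENNReal.ofReal_coe_nnreal, NNReal.coe_real_pi, ← ENNReal.ofReal_mul (by positivity),
      ← ENNReal.ofReal_mul (by positivity)]
    refine ENNReal.ofReal_le_ofReal ?_
    calc (5 ^ m * ∏ i, ‖z - a i‖) ^ 2 * ((4 * ρ z) ^ 2 * Real.pi)
        = 16 * Real.pi * (5 ^ m) ^ 2 * (ρ z * ∏ i, ‖z - a i‖) ^ 2 := by ring
      _ ≤ 16 * 4 * (5 ^ m) ^ 2 * (((3 * l) ^ (m + 1)) ^ 2 * W z) := by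
        gcongr; exact Real.pi_le_four
      _ = c * W z := by rw [hc]; ring
  refine step1.trans ((lintegral_iUnion_le _ _).trans ?_)
  refine (ENNReal.tsum_le_tsum fun z : u => step2 z z.2).trans ?_
  refine ENNReal.summable.tsum_le_of_sum_le fun F => ?_
  have c0 : 0 ≤ c := by positivity
  rw [← ENNReal.ofReal_sum_of_nonneg (fun z _ => by positivity), ← Finset.mul_sum]
  refine ENNReal.ofReal_le_ofReal (mul_le_mul_of_nonneg_left ?_ c0)
  have hd : ((F.map (Function.Embedding.subtype _) : Finset ℂ) : Set ℂ).PairwiseDisjoint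
      fun z => closedBall z (ρ z) := hdisj.subset (by
    intro z hz
    simp only [Finset.coe_map, mem_image] at hz
    obtain ⟨w, -, rfl⟩ := hz
    exact w.2)
  have d1 := count_le b S ρ _ hd
  have d2 := count_le a Finset.univ ρ _ hd
  rw [Finset.sum_map] at d1 d2
  simp only [Function.Embedding.coe_subtype] at d1 d2
  simp only [hW]
  rw [Finset.sum_add_distrib, ← Finset.sum_div]
  have hM' : (0:ℝ) < M := by exact_mod_cast hM
  rw [hS] at d1
  simp only [Finset.card_univ, Fintype.card_fin] at d2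
  have d3 : (∑ x ∈ F, ((S.filter (fun k => ‖(x:ℂ) - b k‖ ≤ ρ x)).card : ℝ)) / M ≤ m + 1 := by
    rw [div_le_iff₀ hM']; exact_mod_cast d1
  linarith

open Polynomial in
lemma antider (r : ℂ[X]) (hr : r.Monic) (m : ℕ) (hm : r.natDegree = m) :
    ∃ p : ℂ[X], p.Monic ∧ p.natDegree = m + 1 ∧ derivative p = C ((m:ℂ) + 1) * r := by
  set p : ℂ[X] := ∑ i ∈ Finset.range (m + 1),
    monomial (i + 1) (((m:ℂ) + 1) * r.coeff i / ((i:ℂ) + 1)) with hp
  have hne : ∀ i : ℕ, (i:ℂ) + 1 ≠ 0 := fun i => by exact_mod_cast Nat.succ_ne_zero i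
  have hle : p.natDegree ≤ m + 1 := by
    refine natDegree_sum_le_of_forall_le _ _ fun i hi => (natDegree_monomial_le _).trans ?_
    have := Finset.mem_range.1 hi; omega
  have hc : p.coeff (m + 1) = 1 := by
    rw [hp, finset_sum_coeff, Finset.sum_eq_single m]
    · have : r.coeff m = 1 := by rw [← hm]; exact hr
      rw [coeff_monomial, if_pos rfl, this, mul_one, div_self (hne m)]
    · intro i _ hi
      rw [coeff_monomial, if_neg (by omega)]
    · intro h; simp at h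
  refine ⟨p, monic_of_natDegree_le_of_coeff_eq_one _ hle hc,
    natDegree_eq_of_le_of_coeff_ne_zero hle (by rw [hc]; exact one_ne_zero), ?_⟩
  conv_rhs => rw [r.as_sum_range, hm]
  rw [hp, derivative_sum, Finset.mul_sum]
  refine Finset.sum_congr rfl fun i _ => ?_
  rw [derivative_monomial, C_mul_monomial]
  simp only [Nat.add_sub_cancel]
  congr 1
  push_cast
  rw [div_mul_cancel₀ _ (hne i)]

open Polynomial in
lemma main (m : ℕ) (K : Set ℂ) (hK : IsCompact K) (q : ℂ[X]) (hq : q.Monic) (N : ℕ)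
    (hN : q.natDegree = N + 1) (l : ℝ) (hl : 0 < l) (hz : ∀ z ∈ K, ‖q.eval z‖ ≤ l ^ (N + 1)) :
    ∃ p : ℂ[X], p.Monic ∧ p.natDegree = m + 1 ∧
      √(∫ z in K, ‖(derivative p).eval z‖ ^ 2) ≤
        (m + 1) * (8 * 5 ^ m * 3 ^ (m + 1) * (2 * m + 1)) * l ^ (m + 1) := by
  classical
  set Q := q ^ (m + 1) with hQ
  have hQm : Q.Monic := hq.pow _
  have hQd : Q.roots.card = (m + 1) * (N + 1) := by
    rw [← (IsAlgClosed.splits Q).natDegree_eq_card_roots, hQ, hq.natDegree_pow, hN]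
  obtain ⟨a, ha⟩ := integral_le (ι := Q.roots.ToType) (fun x => (x : ℂ)) Finset.univ (N + 1) m
    (by omega) (by rw [Finset.card_univ, Multiset.card_coe, hQd]) l hl K hK.measurableSet
    (fun z hzK => by
      have e1 := (IsAlgClosed.splits Q).eval_eq_prod_roots_of_monic hQm z
      rw [← Multiset.map_univ Q.roots (fun x => z - x)] at e1
      have e2 : Q.eval z = ∏ x : Q.roots.ToType, (z - (x:ℂ)) := e1
      rw [← norm_prod, ← e2, hQ, eval_pow, norm_pow, ← pow_mul, mul_comm, pow_mul]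
      exact pow_le_pow_left₀ (norm_nonneg _) (hz z hzK) _)
  obtain ⟨p, p1, p2, p3⟩ := antider (∏ i, (X - C (a i))) (monic_prod_X_sub_C _ _) m
    (by rw [natDegree_finset_prod_X_sub_C_eq_card]; simp)
  refine ⟨p, p1, p2, ?_⟩
  have e : ∀ z, ‖(derivative p).eval z‖ ^ 2 = ((m:ℝ) + 1) ^ 2 * (∏ i, ‖z - a i‖) ^ 2 := by
    intro z
    rw [p3, eval_mul, eval_C, eval_prod, norm_mul, norm_prod, mul_pow]
    congr 2
    · exact_mod_cast Complex.norm_natCast (m + 1)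
    · simp
  simp only [e]
  rw [integral_const_mul, Real.sqrt_le_left (by positivity)]
  have h1 : ∫ z in K, (∏ i, ‖z - a i‖) ^ 2 ≤
      64 * (5 ^ m) ^ 2 * ((3 * l) ^ (m + 1)) ^ 2 * (2 * m + 1) := by
    rw [integral_eq_lintegral_of_nonneg_ae (Eventually.of_forall fun z => by positivity)
      (Continuous.aestronglyMeasurable (by fun_prop))]
    exact ENNReal.toReal_le_of_le_ofReal (by positivity) ha
  have h2 : (2 * (m:ℝ) + 1) ≤ (2 * m + 1) ^ 2 := by nlinarith [(Nat.cast_nonneg m : (0:ℝ) ≤ m)]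
  calc ((m:ℝ) + 1) ^ 2 * ∫ z in K, (∏ i, ‖z - a i‖) ^ 2
      ≤ ((m:ℝ) + 1) ^ 2 * (64 * (5 ^ m) ^ 2 * ((3 * l) ^ (m + 1)) ^ 2 * (2 * m + 1) ^ 2) := by
        gcongr; exact h1.trans (by gcongr)
    _ = _ := by rw [mul_pow 3 l]; ring

end Pool.Agent.H.MP_38bb9b_an
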